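import Pool.Agent.Work.MP_4f096c_nt.GFinal
import Pool.Agent.Work.MP_4f096c_nt.BoundT35
import Pool.Agent.Work.MP_4f096c_nt.CertT35

/-!
# At least one of the numbers `ζ(11), ζ(13), ..., ζ(35)` is irrational

Very well poised linear forms whose numerator blocks have zeros on both sides of the interval of
poles, an exact computation of the asymptotics of their denominators, an upper bound of the forms
by a contour integral, and non-vanishing by a determinant argument.
-/

namespace Pool.Agent.Results.MP_4f096c_nt.OddZeta11to35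

/-- Some `ζ(k)` with `k` odd and `11 ≤ k ≤ 35` is irrational. -/
theorem result : ∃ k : ℕ, Odd k ∧ 11 ≤ k ∧ k ≤ 35 ∧
    Irrational (∑' n : ℕ, 1 / ((n : ℝ) + 1) ^ k) := by
  have h := ZetaCert.final (D := ZetaCert.DT35) ZetaCert.okT35 (by decide +kernel)
    (C0 := ((12631/5 : ℚ) : ℝ)) (C2 := (251508 / 100 : ℝ)) (by norm_num) ZetaCert.certT35
    (fun d => ZG.bnd35 d)
  obtain ⟨k, h1, h2, h3, h4⟩ := h
  exact ⟨k, h1, h2, h3, h4⟩

end Pool.Agent.Results.MP_4f096c_nt.OddZeta11to35
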