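import Pool.Agent.Work.MP_4f096c_nt.GFinal2
import Pool.Agent.Work.MP_4f096c_nt.BoundT9
import Pool.Agent.Work.MP_4f096c_nt.CertT9

/-!
# At least one of the three numbers `ζ(5), ζ(7), ζ(9)` is irrational

Very well poised linear forms in `1, ζ(5), ζ(7), ζ(9)` whose numerator blocks have zeros on both
sides of the interval of poles, with a new arithmetic saving: at the primes `p` for which the
smallest exponent is attained only at central residue classes, the leading parts of the rational
coefficient cancel in pairs (`k` and `h - k` modulo `p`) and one more power of `p` is gained.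
-/

namespace Pool.Agent.Results.MP_4f096c_nt.OddZeta5to9

/-- One of `ζ(5), ζ(7), ζ(9)` is irrational. -/
theorem result : ∃ k : ℕ, Odd k ∧ 5 ≤ k ∧ k ≤ 9 ∧
    Irrational (∑' n : ℕ, 1 / ((n : ℝ) + 1) ^ k) := by
  have h := ZetaCert.final2 (D := ZetaCert.DT9) ZetaCert.okT9 (by decide +kernel)
    (C0 := ((21251/100 : ℚ) : ℝ)) (C2 := (21029 / 100 : ℝ)) (by norm_num) ZetaCert.certT9
    (fun d => ZG.bnd9 d)
  obtain ⟨k, h1, h2, h3, h4⟩ := h
  exact ⟨k, h1, h2, h3, h4⟩

end Pool.Agent.Results.MP_4f096c_nt.OddZeta5to9
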